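import Pool.Agent.Lib.MP_da2747_an.Proof

/-!
# Steiner symmetrization of three-plate condensers

The definitions of admissible functions, capacity and Steiner symmetrization are in
`Pool.Agent.Lib.MP_da2747_an.Defs`; the construction and the proof are in
`Pool.Agent.Lib.MP_da2747_an.Proof`.
-/

open Pool.Agent.Lib.MP_da2747_an

namespace Pool.Agent.Results.MP_da2747_an.Disproof

/-- There is a three-plate condenser `C` with closed pairwise disjoint plates `E 0`, `E 1`, `E 2`
(potentials `1`, `-1`, `0`), with `E 0` contained in the open left half plane and `E 1` the mirror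
image of `E 0` in the imaginary axis, such that the plates of `St C` are closed and pairwise
disjoint and `cap C < cap (St C) < ∞`.  So the inequality `cap C ≥ cap (St C)` fails in general when
the third plate is not assumed to be symmetric in the imaginary axis. -/
theorem result :
    ∃ E : Fin 3 → Set (OnePoint ℂ),
      (∀ k, IsClosed (E k)) ∧ Pairwise (Function.onFun Disjoint E) ∧
      (∀ p ∈ E 0, ∃ z : ℂ, p = (z : OnePoint ℂ) ∧ z.re < 0) ∧
      E 1 = mirror (E 0) ∧
      (∀ k, IsClosed (steinerPlates E k)) ∧
      Pairwise (Function.onFun Disjoint (steinerPlates E)) ∧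
      capacity E ![1, -1, 0] < capacity (steinerPlates E) ![1, -1, 0] ∧
      capacity (steinerPlates E) ![1, -1, 0] < ⊤ :=
  main

end Pool.Agent.Results.MP_da2747_an.Disproof
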